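import Pool.Agent.Lib.MP_903d4d_co.Cayley
import Pool.Agent.Lib.MP_903d4d_co.Bound

set_option autoImplicit false

/-!
# A triangle-free graph with Hadamard critical exponent larger than `r(G) - 2 = 1`

The graph is a triangle-free Cayley graph on `F_2^10` (1024 vertices).  For it `r(G) = 3`, and its
Hadamard critical exponent is larger than `12 / 11` and at most `2`.
-/

namespace Pool.Agent.Results.MP_903d4d_co.TriangleFree

open Pool.Agent.Lib.MP_903d4d_co

/-- The cone `P_G([0,∞))`: the positive semidefinite real matrices with nonnegative entries whose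
entries `A i j` with `i ≠ j` and `{i,j}` not an edge of `G` are zero. -/
def cone {V : Type} (G : SimpleGraph V) : Set (Matrix V V ℝ) :=
  {A | A.PosSemidef ∧ (∀ i j, 0 ≤ A i j) ∧ ∀ i j, i ≠ j → ¬ G.Adj i j → A i j = 0}

/-- The entrywise power `A^{∘β}`, with the convention `0 ^ β = 0` for every `β`. -/
noncomputable def entrywisePower {V : Type} (A : Matrix V V ℝ) (β : ℝ) : Matrix V V ℝ :=
  fun i j => if A i j = 0 then 0 else A i j ^ β

/-- `c` is the Hadamard critical exponent of `G`: the least `α ≥ 0` such that `A^{∘β}` is positive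
semidefinite for all `A` in `P_G([0,∞))` and all `β ≥ α`. -/
def IsCriticalExponent {V : Type} (G : SimpleGraph V) (c : ℝ) : Prop :=
  IsLeast {α : ℝ | 0 ≤ α ∧ ∀ A ∈ cone G, ∀ β : ℝ, α ≤ β → (entrywisePower A β).PosSemidef} c

/-- `G` contains (not necessarily as an induced subgraph) the graph `K_m^{(1)}` obtained from the
complete graph on `m ≥ 2` vertices by deleting one edge. -/
def ContainsAlmostComplete {V : Type} (G : SimpleGraph V) (m : ℕ) : Prop :=
  ∃ a b : Fin m, a ≠ b ∧ ((⊤ : SimpleGraph (Fin m)).deleteEdges {s(a, b)}).IsContained G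

theorem entrywisePower_eq {V : Type} (A : Matrix V V ℝ) (β : ℝ) :
    entrywisePower A β = A.map (pw β) := rfl

theorem card_VV (k : ℕ) : Fintype.card (VV k) = 2 ^ k := by
  induction k with
  | zero => rfl
  | succ k ih =>
    have h : Fintype.card (VV (k + 1)) = Fintype.card (Bool × VV k) := rfl
    rw [h, Fintype.card_prod, ih, Fintype.card_bool, pow_succ, mul_comm]

theorem cone_symm {V : Type} {G : SimpleGraph V} {A : Matrix V V ℝ} (hA : A ∈ cone G) (i j : V) :
    A i j = A j i := by
  have := hA.1.1.apply i j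
  simpa using this.symm

/-- A least admissible exponent exists as soon as there is an admissible exponent. -/
theorem exists_critical {V : Type} [Fintype V] (G : SimpleGraph V) (t : ℝ)
    (ht : 0 ≤ t ∧ ∀ A ∈ cone G, ∀ β : ℝ, t ≤ β → (entrywisePower A β).PosSemidef) :
    ∃ c : ℝ, IsCriticalExponent G c := by
  let S : Set ℝ :=
    {α : ℝ | 0 ≤ α ∧ ∀ A ∈ cone G, ∀ β : ℝ, α ≤ β → (entrywisePower A β).PosSemidef}
  have hne : S.Nonempty := ⟨t, ht⟩
  have hbdd : BddBelow S := ⟨0, fun α hα => hα.1⟩
  refine ⟨sInf S, ⟨?_, fun α hα => csInf_le hbdd hα⟩⟩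
  refine ⟨le_csInf hne fun α hα => hα.1, ?_⟩
  intro A hA β hβ
  have hgt : ∀ γ : ℝ, sInf S < γ → (entrywisePower A γ).PosSemidef := by
    intro γ hγ
    obtain ⟨α, hα, hlt⟩ := exists_lt_of_csInf_lt hne hγ
    exact hα.2 A hA γ hlt.le
  rcases hβ.eq_or_lt with h | h
  · refine Matrix.PosSemidef.of_dotProduct_mulVec_nonneg ?_ ?_
    · ext i j
      simp [Matrix.conjTranspose, entrywisePower, cone_symm hA j i]
    · intro x
      let f : ℝ → ℝ := fun γ => star x ⬝ᵥ ((entrywisePower A γ).mulVec x)
      have hcont : Continuous f := by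
        simp only [f, dotProduct, Matrix.mulVec, entrywisePower]
        refine continuous_finsetSum _ fun i _ => Continuous.mul continuous_const ?_
        refine continuous_finsetSum _ fun j _ => Continuous.mul ?_ continuous_const
        by_cases h0 : A i j = 0
        · simp only [h0, if_true]
          exact continuous_const
        · simp only [if_neg h0]
          exact Real.continuous_const_rpow h0
      have hlim : Filter.Tendsto f (nhdsWithin β (Set.Ioi β)) (nhds (f β)) :=
        (hcont.tendsto β).mono_left nhdsWithin_le_nhds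
      refine ge_of_tendsto hlim (eventually_nhdsWithin_of_forall fun γ hγ => ?_)
      exact (hgt γ (h ▸ hγ)).dotProduct_mulVec_nonneg x
  · exact hgt β h

/-- There is a triangle-free graph `G` on 1024 vertices with `r(G) = 3` whose Hadamard critical
exponent `c` satisfies `12 / 11 < c ≤ 2`; so `CE_H(G) ≠ r(G) - 2`. -/
theorem result :
    ∃ G : SimpleGraph (Fin 1024), G.CliqueFree 3 ∧
      IsGreatest {m : ℕ | ContainsAlmostComplete G m} 3 ∧
      ∃ c : ℝ, IsCriticalExponent G c ∧ 12 / 11 < c ∧ c ≤ 2 := by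
  classical
  let e : Fin 1024 ≃ VV 10 := (Fintype.equivFinOfCardEq (card_VV 10)).symm
  let G' : SimpleGraph (Fin 1024) := G.comap e
  have htri : ∀ x y z, G'.Adj x y → G'.Adj y z → G'.Adj x z → False :=
    fun x y z h1 h2 h3 => G_tri (e x) (e y) (e z) h1 h2 h3
  have hcf : G'.CliqueFree 3 := by
    intro s hs
    rw [SimpleGraph.is3Clique_iff] at hs
    obtain ⟨a, b, c, hab, hac, hbc, -⟩ := hs
    exact htri a b c hab hbc hac
  refine ⟨G', hcf, ⟨?_, ?_⟩, ?_⟩
  · -- a path on three vertices
    obtain ⟨f, hf, a, b, hab, hadj⟩ := path_exists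
    refine ⟨a, b, hab, ⟨⟨⟨fun i => e.symm (f i), ?_⟩, ?_⟩⟩⟩
    · intro i j hij
      rw [SimpleGraph.deleteEdges_adj] at hij
      obtain ⟨h1, h2⟩ := hij
      have h3 : i ≠ j := h1
      have h4 : G.Adj (f i) (f j) := by
        refine hadj i j h3 ?_ ?_
        · rintro ⟨rfl, rfl⟩
          exact h2 rfl
        · rintro ⟨rfl, rfl⟩
          exact h2 (Sym2.eq_swap)
      change G.Adj (e (e.symm (f i))) (e (e.symm (f j)))
      rw [e.apply_symm_apply, e.apply_symm_apply]
      exact h4
    · intro i j hij
      exact hf (e.symm.injective hij)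
  · -- no larger almost complete graph
    rintro m ⟨a, b, hab, ⟨⟨φ, hφ⟩⟩⟩
    refine r_max m ⟨fun i => e (φ i), fun i j hij => hφ (e.injective hij), a, b, hab, ?_⟩
    intro i j hij h1 h2
    have h3 : ((⊤ : SimpleGraph (Fin m)).deleteEdges {s(a, b)}).Adj i j := by
      rw [SimpleGraph.deleteEdges_adj]
      refine ⟨hij, ?_⟩
      intro h4
      have h5 : s(i, j) = s(a, b) := h4
      rw [Sym2.eq_iff] at h5
      rcases h5 with h5 | h5
      · exact h1 h5
      · exact h2 ⟨h5.1, h5.2⟩
    exact φ.map_rel h3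
  · -- the critical exponent
    have h2 : ∀ A ∈ cone G', ∀ β : ℝ, 2 ≤ β → (entrywisePower A β).PosSemidef := by
      rintro A ⟨hA, hnn, hpat⟩ β hβ
      exact pow_psd G' htri A hA hnn hpat β hβ
    obtain ⟨c, hc⟩ := exists_critical G' 2 ⟨by norm_num, h2⟩
    refine ⟨c, hc, ?_, hc.2 ⟨by norm_num, h2⟩⟩
    by_contra hle
    push Not at hle
    let B : Matrix (Fin 1024) (Fin 1024) ℝ := A.submatrix e e
    have hB : B ∈ cone G' := by
      refine ⟨A_psd.submatrix e, fun i j => A_nonneg _ _, fun i j hij hadj => ?_⟩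
      exact A_pat (e i) (e j) (fun h => hij (e.injective h)) hadj
    have hP := hc.1.2 B hB (12 / 11) hle
    refine not_psd ?_
    have h3 := hP.submatrix e.symm
    have h4 : (entrywisePower B (12 / 11)).submatrix e.symm e.symm =
        A.map (fun x : ℝ => x ^ ((12 : ℝ) / 11)) := by
      ext i j
      simp only [Matrix.submatrix_apply, entrywisePower, B, Matrix.map_apply,
        e.apply_symm_apply]
      split_ifs with h0
      · rw [h0, Real.zero_rpow (by norm_num)]
      · rfl
    rw [h4] at h3
    exact h3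

end Pool.Agent.Results.MP_903d4d_co.TriangleFree
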